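import Pool.Agent.H65.CMC.AsmE
import Pool.Agent.H95.CMC.AllC
import Pool.Agent.H23.CMC.Asm

/-!
# The fourth moment of the complete family of CM Hilbert modular forms over a totally real field: the
theorem
-/

set_option autoImplicit false

namespace Pool.Agent.H65.CMC

/-- the final theorem -/
theorem fin : T_FINc :=
  Pool.Agent.H23.CMC.partG
    (Pool.Agent.H95.CMC.all_C E.e_TM (fun k _ _ _ => Pool.Agent.H61.CMC1.e_EZAm k))
    Pool.Agent.H61.CMC1.e_KCBn Pool.Agent.H61.CMC1.e_KCDn

end Pool.Agent.H65.CMC
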