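import Pool.Agent.H65.CM4.AsmB
import Pool.Agent.H61.CMC1.AsmE1
import Pool.Agent.H55.CMC.ANR
import Pool.Agent.H89.CMC.BOX
import Pool.Agent.H89.CMC.CEL
import Pool.Agent.H39.CMC.CFB
import Pool.Agent.H77.CMC.ECB
import Pool.Agent.H77.CMC.ECC
import Pool.Agent.H40.CMC.EXP
import Pool.Agent.H38.CMC.FZC
import Pool.Agent.H72.CMC.HE1
import Pool.Agent.H31.CMC.HEC
import Pool.Agent.H56.CMC.QCM
import Pool.Agent.H89.CMC.RDB
import Pool.Agent.H72.CMC.TM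
import Pool.Agent.H89.CMC.TMB
import Pool.Agent.H31.CMC.TRI

/-!
# The fourth moment of the complete family of CM Hilbert modular forms: assembly of part B (the
twisted second moment over the reduced forms, uniform in the weight)
-/

set_option autoImplicit false

open NumberField

namespace Pool.Agent.H65.CMC.E

open Pool.Agent.H65.CM4 Pool.Agent.H65.CM4.B Pool.Agent.H89.CMC

variable (k : Type) [Field k] [NumberField k] [IsTotallyReal k]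

theorem e_KCB : T_KCBm k := Pool.Agent.H61.CMC1.e_KCBm k

theorem e_KCD : T_KCDm k := Pool.Agent.H61.CMC1.e_KCDm k

theorem e_EZA : T_EZAm k := Pool.Agent.H61.CMC1.e_EZAm k

theorem e_ANR : T_ANR k := Pool.Agent.H55.CMC.pf_ANR k

theorem e_TMB : T_TMB k := Pool.Agent.H89.CMC.pf_TMB k

theorem e_QCM : T_QCM k := Pool.Agent.H56.CMC.pf_QCM k (b_QCB k)

theorem e_ECB : T_ECBm k :=
  Pool.Agent.H77.CMC.pf_ECBm k (e_KCB k) (e_QCM k) (b_LSM k) (b_BIX k) (b_DUL k) (a_MIN k) (e_TMB k)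

theorem e_ECC : T_ECCm k :=
  Pool.Agent.H77.CMC.pf_ECCm k (e_KCB k) (e_KCD k) (e_QCM k) (b_LSM k) (b_BIX k) (b_DUL k) (a_MIN k)
    (e_TMB k)

theorem e_HE1 : T_HE1m k :=
  Pool.Agent.H72.CMC.pf_HE1m k (e_EZA k) (b_CNL k) (b_IXC k) (b_QZR k) (a_CRT k) (a_FLS k) (a_IDC k)

theorem e_HEC : T_HECm k :=
  Pool.Agent.H31.CMC.pf_HECm k (e_HE1 k) (e_EZA k) (b_IXC k) (a_FLS k) (a_CRT k)

theorem e_EXP : T_EXPm k :=
  Pool.Agent.H40.CMC.pf_EXPm k (e_HEC k) (b_IND k) (a_RFM k) (a_CRT k) (a_FLS k) (a_IDC k) (b_QZR k)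

theorem e_CFB : T_CFBm k :=
  Pool.Agent.H39.CMC.pf_CFBm k (e_ECB k) (b_KMN k) (b_IXC k) (b_MNL k) (a_IDC k) (a_DVI k)
    (a_EMB k) (a_MIN k) (a_FLS k) (e_TMB k)

theorem e_FZC : T_FZCm k := Pool.Agent.H38.CMC.pf_FZCm k (e_ECC k) (b_IXC k) (a_IDC k)

theorem e_TRI : T_TRIm k :=
  Pool.Agent.H31.CMC.pf_TRIm k (b_FOR k) (b_QZR k) (e_ANR k) (a_FLS k) (a_IDC k)

theorem e_CEL : T_CELm k :=
  Pool.Agent.H89.CMC.pf_CELm k b_CAS (e_FZC k) (e_CFB k) (e_EXP k) (a_LS k) (a_EMB k) (e_TMB k)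

theorem e_BOX : T_BOXm k :=
  Pool.Agent.H89.CMC.pf_BOXm k (e_CEL k) (b_CVR k) (a_EMB k) (e_TMB k)

theorem e_RDB : T_RDBm k :=
  Pool.Agent.H89.CMC.pf_RDBm k (e_BOX k) (e_TRI k) (a_LOW k) (a_BXC k) (a_EMB k)

theorem e_TM : Pool.Agent.H65.CMC.T_TMm :=
  Pool.Agent.H72.CMC.pf_TMm (fun k _ _ _ => e_RDB k) (fun k _ _ _ => b_FML k)
    (fun k _ _ _ => a_CHX k) (fun k _ _ _ => a_EMB k)

end Pool.Agent.H65.CMC.E
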