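import Pool.Agent.H65.CM4.Targets1

/-!
# The fourth moment of the complete family of CM Hilbert modular forms over a totally real field:
definitions

Stage 2 of `Pool.Agent.H65.CM4`: the characters have an arbitrary conductor `f 𝓞 K`, `f` an ideal of
`𝓞 k`, and an arbitrary weight `m : Pl k → ℤ`.
-/

set_option autoImplicit false

open MeasureTheory Set Filter NumberField NumberField.InfinitePlace
open scoped Real

namespace Pool.Agent.H65.CMC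

open Pool.Agent.H65.CM4

/-! ### Characters -/

section Char

variable (k : Type) [Field k] [NumberField k] [IsTotallyReal k]
variable {K : Type} [Field K] [NumberField K] [Algebra k K]

/-- `Φ v` is an embedding of `K` above the place `v` of `k`, for every `v` -/
def Emb (Φ : Pl k → K →+* ℂ) : Prop :=
  ∀ (v : Pl k) (x : k), Φ v (algebraMap k K x) = ((rv v x : ℝ) : ℂ)

variable {k}

/-- the infinity type `∏_v (a_v / conj a_v) ^ (m_v)` -/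
noncomputable def ty (Φ : Pl k → K →+* ℂ) (m : Pl k → ℤ) (a : K) : ℂ :=
  ∏ v : Pl k, (Φ v a / (starRingEnd ℂ) (Φ v a)) ^ (m v)

/-- the ideal `I` is nonzero and prime to `f` -/
def PrTo (f : Ideal (𝓞 k)) (I : Ideal (𝓞 K)) : Prop :=
  I ≠ ⊥ ∧ I ⊔ f.map (algebraMap (𝓞 k) (𝓞 K)) = ⊤

/-- `ψ` is a primitive Hecke character of `K` of conductor `f 𝓞 K` and infinity type `ty Φ m`, which
is trivial on `𝓞 k` modulo `f` -/
structure IsHk (Φ : Pl k → K →+* ℂ) (f : Ideal (𝓞 k)) (m : Pl k → ℤ) (ψ : Ideal (𝓞 K) → ℂ) :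
    Prop where
  fne : f ≠ ⊥
  one : ψ ⊤ = 1
  mul : ∀ I J, ψ (I * J) = ψ I * ψ J
  nrm : ∀ I, PrTo f I → ‖ψ I‖ = 1
  zer : ∀ I, ¬ PrTo f I → ψ I = 0
  pri : ∀ (a : 𝓞 K) (n : 𝓞 k), PrTo f (Ideal.span {a}) →
    a - algebraMap (𝓞 k) (𝓞 K) n ∈ f.map (algebraMap (𝓞 k) (𝓞 K)) →
    ψ (Ideal.span {a}) = ty Φ m (a : K)
  prm : ∀ P : Ideal (𝓞 k), P.IsPrime → P ∣ f → ∃ (a : 𝓞 K) (n : 𝓞 k), PrTo f (Ideal.span {a}) ∧
    (∀ x ∈ P, (a - algebraMap (𝓞 k) (𝓞 K) n) * algebraMap (𝓞 k) (𝓞 K) x ∈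
      f.map (algebraMap (𝓞 k) (𝓞 K))) ∧ ψ (Ideal.span {a}) ≠ ty Φ m (a : K)

/-- the size of a weight -/
noncomputable def ms (m : Pl k → ℤ) : ℝ := ∑ v : Pl k, |(m v : ℝ)|

end Char

/-- `L` is the `L`-function of the completely multiplicative function `ψ` on the ideals of `K` -/
def IsLk (K : Type) [Field K] [NumberField K] (ψ : Ideal (𝓞 K) → ℂ) (L : ℂ → ℂ) : Prop :=
  DifferentiableOn ℂ L {1}ᶜ ∧ ∀ s : ℂ, 1 < s.re →
    HasSum (fun I : nonZeroDivisors (Ideal (𝓞 K)) =>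
      ψ I * (Ideal.absNorm (I : Ideal (𝓞 K)) : ℂ) ^ (-s)) (L s)

/-! ### The kernel -/

/-- the Gamma factor of a place of weight `m`, times `s (s - 1)` -/
noncomputable def gg (m : ℤ) (s : ℂ) : ℂ :=
  s * (s - 1) * Complex.Gamma (s + ((|m| : ℤ) : ℂ)) * (2 * (π : ℂ)) ^ (-s)

section Real

variable {k : Type} [Field k] [NumberField k]

/-- the Gamma factor of the weight `m` -/
noncomputable def GM (m : Pl k → ℤ) (s : ℂ) : ℂ := ∏ v : Pl k, gg (m v) s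

/-- the size of the Gamma factor on the critical line -/
noncomputable def cG (m : Pl k → ℤ) (t : ℝ) : ℝ :=
  ∏ v : Pl k, ‖Complex.Gamma (1 / 2 + ((|m v| : ℤ) : ℂ) + t * Complex.I)‖

/-- the kernel of the approximate functional equation -/
noncomputable def Km (m : Pl k → ℤ) (s r : ℂ) : ℂ :=
  ((1 / (2 * π) : ℝ) : ℂ) * ∫ t : ℝ, GM m (2 + t * Complex.I) *
    (Complex.exp ((2 + t * Complex.I - s) ^ 2) / (2 + t * Complex.I - s)) *
      r ^ (-(2 + t * Complex.I))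

/-- the angular factor of a place, with complex parameters -/
noncomputable def ac (x y : ℂ) (a b : ℝ) : ℂ :=
  ((a : ℂ) + b * (x + Complex.I * y)) / ((a : ℂ) + b * (x - Complex.I * y))

variable [IsTotallyReal k]

/-- the angular factor of the weight `m` -/
noncomputable def an (m : Pl k → ℤ) (x y : Pl k → ℂ) (u : V2 k) : ℂ :=
  ∏ v : Pl k, ac (x v) (y v) (rv v (u.1 : k)) (rv v (u.2 : k)) ^ (m v)

/-! ### Epstein zeta functions -/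

open Classical in
/-- the completed Epstein zeta function with the angular factor, with complex parameters -/
noncomputable def Em (s : ℂ) (m : Pl k → ℤ) (M : La k) (x y : Pl k → ℂ) : ℂ :=
  (∑' u : V2 k, if u ∈ M ∧ u ∈ Fo k then an m x y u * Km m s (qn x y u / ix M) else 0) +
    ((1 / dk k : ℝ) : ℂ) * ∑' u : V2 k, if u ∈ du M ∧ u ∈ Fo k then
      an m x y u * Km m (1 - s) ((ix M : ℂ) * qn x y u / ((dk k * ix M : ℕ) : ℂ) ^ (2 * dg k)) else 0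

/-- the completed Epstein zeta function with the angular factor -/
noncomputable def Zm (s : ℂ) (m : Pl k → ℤ) (M : La k) (x y : Pl k → ℝ) : ℂ :=
  Em s m M (fun v => (x v : ℂ)) (fun v => (y v : ℂ))

open Classical in
/-- the twisted sum of the lattice `M` and the form `Q` -/
noncomputable def Bm (s : ℂ) (m : Pl k → ℤ) (α : Ideal (𝓞 k) → ℂ) (b : ℕ) (A : ℝ) (M : La k)
    (Q : QF k) : ℂ :=
  ∑ I ∈ Sq b A, α I * ∑ L ∈ (Ls I).filter (fun L => Dv I L Q), Zm s m (M ⊓ L) (zx Q) (zy Q)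

end Real

/-- the twisted second moment over the reduced forms: the interface between the part B and the
part C -/
def T_TMm : Prop :=
  ∀ (k : Type) [Field k] [NumberField k] [IsTotallyReal k], ∃ b₀ : ℕ, 0 < b₀ ∧
    ∀ (b : ℕ) (B : ℝ), 0 < b → b₀ ∣ b → 1 ≤ B →
    ∀ ε : ℝ, 0 < ε → ∃ κ : ℝ, 0 < κ ∧ κ ≤ 1 / 8 ∧ ∃ δ : ℝ, 0 < δ ∧ ∃ (C : ℝ) (j : ℕ), 0 ≤ C ∧
    ∀ (s : ℂ) (m : Pl k → ℤ) (y A : ℝ) (α : Ideal (𝓞 k) → ℂ) (S : Finset (La k × QF k)),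
      |s.re - 1 / 2| ≤ κ → 1 ≤ y → 1 ≤ A → A ≤ y ^ (dg k * (1 + δ)) → (∀ I, ‖α I‖ ≤ 1) →
      (∀ p ∈ S, Rd b B y p.1 p.2) →
      ∑ p ∈ S, ‖Bm s m α b A p.1 p.2‖ ^ 2 ≤
        C * (1 + |s.im| + ms m) ^ j * cG m s.im ^ 2 * y ^ (dg k * (3 + ε)) * A

/-! ### Families -/

section Fam

variable (k : Type) [Field k] [NumberField k] [IsTotallyReal k]

/-- the indices `(i, ψ)` of the family -/
abbrev Idx {ι : Type} (K : ι → Type) [∀ i, Field (K i)] [∀ i, NumberField (K i)] : Type :=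
  Σ i : ι, Ideal (𝓞 (K i)) → ℂ

/-- the size `|d_K| N(f) ^ 2` of the conductor -/
noncomputable def cdc {ι : Type} {K : ι → Type} [∀ i, Field (K i)] [∀ i, NumberField (K i)]
    (f : Idx K → Ideal (𝓞 k)) (x : Idx K) : ℝ :=
  |(discr (K x.1) : ℝ)| * nm (f x) ^ 2

/-- a finite family of characters of pairwise non-isomorphic CM quadratic extensions of `k`, with
their `L`-functions, with conductors in `[a, b]` -/
structure Fmc {ι : Type} (K : ι → Type) [∀ i, Field (K i)] [∀ i, NumberField (K i)]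
    [∀ i, Algebra k (K i)] (Φ : ∀ i, Pl k → K i →+* ℂ) (S : Finset (Idx K))
    (f : Idx K → Ideal (𝓞 k)) (m : Idx K → Pl k → ℤ) (L : Idx K → ℂ → ℂ) (a b : ℝ) : Prop where
  rk : ∀ x ∈ S, Module.finrank k (K x.1) = 2
  cx : ∀ x ∈ S, IsTotallyComplex (K x.1)
  emb : ∀ x ∈ S, Emb k (Φ x.1)
  ne : ∀ x ∈ S, ∀ y ∈ S, Nonempty (K x.1 ≃ₐ[k] K y.1) → x.1 = y.1
  hk : ∀ x ∈ S, IsHk (Φ x.1) (f x) (m x) x.2
  lo : ∀ x ∈ S, a ≤ cdc k f x
  hi : ∀ x ∈ S, cdc k f x ≤ b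
  lf : ∀ x ∈ S, IsLk (K x.1) x.2 (L x)

end Fam

/-- the coefficients of the `L`-function as a Dirichlet series over the ideals of `k` -/
noncomputable def lc (k : Type) [Field k] [NumberField k] {K : Type} [Field K] [NumberField K]
    [Algebra k K] (ψ : Ideal (𝓞 K) → ℂ) (I : Ideal (𝓞 k)) : ℂ :=
  ∑ᶠ J ∈ {J : Ideal (𝓞 K) | J ≠ ⊥ ∧ Ideal.relNorm (𝓞 k) J = I}, ψ J

/-- (TMF) the twisted second moment of the `L`-functions of weight `m`: the interface between the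
parts C and D -/
def T_TMFm : Prop :=
  ∀ (k : Type) [Field k] [NumberField k] [IsTotallyReal k], ∃ b : ℕ, 0 < b ∧
    ∀ ε : ℝ, 0 < ε → ∃ κ : ℝ, 0 < κ ∧ κ ≤ 1 / 8 ∧ ∃ δ : ℝ, 0 < δ ∧ ∃ (C : ℝ) (j : ℕ), 0 < C ∧
    ∀ (s : ℂ) (X A : ℝ) (α : Ideal (𝓞 k) → ℂ) (ι : Type) (K : ι → Type) [∀ i, Field (K i)]
      [∀ i, NumberField (K i)] [∀ i, Algebra k (K i)] (Φ : ∀ i, Pl k → K i →+* ℂ)
      (S : Finset (Idx K)) (f : Idx K → Ideal (𝓞 k)) (m : Pl k → ℤ) (F : Idx K → ℂ → ℂ),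
      |s.re - 1 / 2| ≤ κ → 1 ≤ X → 1 ≤ A → A ≤ X ^ ((1 + δ) / 2) → (∀ I, ‖α I‖ ≤ 1) →
      Fmc k K Φ S f (fun _ => m) F (X / 4) X →
      ∑ x ∈ S, ‖∑ I ∈ Sq b A, α I * lc k x.2 I‖ ^ 2 * ‖F x s‖ ^ 2 ≤
        C * (1 + |s.im| + ms m) ^ j * X ^ (3 / 2 + ε) * A

/-- the final theorem -/
def T_FINc : Prop :=
  (∀ (k : Type) [Field k] [NumberField k] [IsTotallyReal k] (K : Type) [Field K] [NumberField K]
    [Algebra k K] (Φ : Pl k → K →+* ℂ) (f : Ideal (𝓞 k)) (m : Pl k → ℤ) (ψ : Ideal (𝓞 K) → ℂ),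
    Module.finrank k K = 2 → IsTotallyComplex K → Emb k Φ → IsHk Φ f m ψ →
    ∃ L : ℂ → ℂ, IsLk K ψ L) ∧
  ∀ (k : Type) [Field k] [NumberField k] [IsTotallyReal k] (ε : ℝ), 0 < ε →
    ∃ (C : ℝ) (A : ℕ), ∀ (X : ℝ) (ι : Type) (K : ι → Type) [∀ i, Field (K i)]
      [∀ i, NumberField (K i)] [∀ i, Algebra k (K i)] (Φ : ∀ i, Pl k → K i →+* ℂ)
      (S : Finset (Idx K)) (f : Idx K → Ideal (𝓞 k)) (m : Idx K → Pl k → ℤ) (L : Idx K → ℂ → ℂ),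
      1 ≤ X → Fmc k K Φ S f m L 0 X →
      (∀ t : Idx K → ℝ,
        ∑ x ∈ S, (‖L x (1 / 2 + t x * Complex.I)‖ / (1 + |t x| + ms (m x)) ^ A) ^ 4 ≤
          C * X ^ (3 / 2 + ε)) ∧
      (∀ η : ℝ, 0 ≤ η → η ≤ 3 / 8 →
        (∀ x ∈ S, ∃ t : ℝ, (1 + |t| + ms (m x)) ^ A * cdc k f x ^ η <
          ‖L x (1 / 2 + t * Complex.I)‖) →
        (S.card : ℝ) ≤ C * X ^ (3 / 2 - 4 * η + ε)) ∧
      ∀ (η : ℝ) (T : Finset (ι × Ideal (𝓞 k))), 0 ≤ η → η ≤ 1 / 4 →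
        (∀ q ∈ T, ∃ x ∈ S, x.1 = q.1 ∧ f x = q.2 ∧ ∃ t : ℝ,
          (1 + |t| + ms (m x)) ^ A * cdc k f x ^ (1 / 8 + η) < ‖L x (1 / 2 + t * Complex.I)‖) →
        (T.card : ℝ) ≤ C * X ^ (1 - 4 * η + ε)

end Pool.Agent.H65.CMC
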