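import Pool.Agent.H65.CMC.Defs
import Pool.Agent.H89.CM4.Targets2

/-!
# Targets of the part B of stage 2: Epstein zeta functions with an angular factor, and the twisted
second moment

Copies of the targets `Pool.Agent.H89.CM4` which mention the zeta functions; the other ones are used
unchanged.
-/

set_option autoImplicit false

open MeasureTheory Set Filter NumberField NumberField.InfinitePlace
open scoped Real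

namespace Pool.Agent.H65.CMC

open Pool.Agent.H65.CM4 Pool.Agent.H89.CM4

section

variable {k : Type} [Field k] [NumberField k]

/-! ### Definitions of the part -/

/-- the size of a weight and a height -/
noncomputable def tm (m : Pl k → ℤ) (t : ℝ) : ℝ := |t| + ms m

/-- the size of the rows in the variables `m`, `t` -/
noncomputable def hm (j : ℕ) (m : Pl k → ℤ) (t : ℝ) : ℝ := (1 + |t| + ms m) ^ j * cG m t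

variable [IsTotallyReal k]

open Classical in
/-- the coefficients of the expansion of the twisted sums -/
noncomputable def cm (s : ℂ) (m : Pl k → ℤ) (α : Ideal (𝓞 k) → ℂ) (b : ℕ) (A : ℝ) (M : La k)
    (I : Ideal (𝓞 k)) (L : La k) (x y : Pl k → ℂ) : ℂ :=
  ∑ g ∈ (Sq b A).filter (fun g => I * g ∈ Sq b A), α (I * g) / ((nm (I * g) : ℝ) : ℂ) *
    ∑ J ∈ dv g, ((nm J : ℝ) : ℂ) ^ (1 - 2 * s) * ((nm g : ℝ) : ℂ) ^ s * Em s m (M ⊓ L ⊓ kO J) x y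

end

section

variable (k : Type) [Field k] [NumberField k] [IsTotallyReal k]

/-! ### The kernel and the functional equation -/

/-- (KCB) the bound of the kernel. -/
def T_KCBm : Prop :=
  ∀ κ : ℝ, 0 < κ → κ ≤ 1 / 8 → ∃ (C : ℝ) (j : ℕ), 0 ≤ C ∧ ∀ (m : Pl k → ℤ) (s r : ℂ),
    |s.re - 1 / 2| ≤ κ → 0 < r.re → 10 * (1 + |s.im|) * |r.im| ≤ r.re →
    ‖Km m s r‖ ≤ C * hm j m s.im * r.re ^ (-(1 / 2 + 2 * κ)) * (1 + r.re) ^ (-(3 : ℝ))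

/-- (KCD) the kernel is holomorphic. -/
def T_KCDm : Prop :=
  ∀ (m : Pl k → ℤ) (s r : ℂ), |s.re - 1 / 2| ≤ 1 / 8 → 0 < r.re →
    10 * (1 + |s.im|) * |r.im| ≤ r.re → DifferentiableAt ℂ (fun r => Km m s r) r

open Classical in
/-- (EZA) the Epstein zeta functions: continuation and functional equation. -/
def T_EZAm : Prop :=
  ∀ (m : Pl k → ℤ) (M : La k) (x y : Pl k → ℝ), ix M ≠ 0 → (∀ v, 0 < y v) →
    DifferentiableOn ℂ (fun s => Zm s m M x y) {s : ℂ | 0 < s.re ∧ s.re < 2} ∧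
    ∀ s : ℂ, 1 < s.re → s.re < 2 →
      Summable (fun u : V2 k => if u ∈ M ∧ u ∈ Fo k then
        an m (fun v => (x v : ℂ)) (fun v => (y v : ℂ)) u *
          (qn (fun v => (x v : ℂ)) (fun v => (y v : ℂ)) u / (ix M : ℂ)) ^ (-s) else 0) ∧
      Zm s m M x y = GM m s * ∑' u : V2 k, if u ∈ M ∧ u ∈ Fo k then
        an m (fun v => (x v : ℂ)) (fun v => (y v : ℂ)) u *
          (qn (fun v => (x v : ℂ)) (fun v => (y v : ℂ)) u / (ix M : ℂ)) ^ (-s) else 0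

/-! ### The angular factor -/

/-- (ANR) the angular factor with real parameters. -/
def T_ANR : Prop :=
  (∀ (m : Pl k → ℤ) (x y : Pl k → ℝ) (u : V2 k), (∀ v, 0 < y v) → u ≠ 0 →
    ‖an m (fun v => (x v : ℂ)) (fun v => (y v : ℂ)) u‖ = 1) ∧
  (∀ (m : Pl k → ℤ) (x y : Pl k → ℂ) (u : V2 k) (a : 𝓞 k), a ≠ 0 → an m x y (a • u) = an m x y u) ∧
  ∀ (m : Pl k → ℤ) (x y : Pl k → ℂ) (u : V2 k) (a : 𝓞 k),
    an m (fun v => x v + ((rv v (a : k) : ℝ) : ℂ)) y u = an m x y (u.1 + a * u.2, u.2)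

/-- (ANB) the angular factor with complex parameters is bounded and holomorphic. -/
def T_ANB : Prop :=
  ∀ B : ℝ, 1 ≤ B → ∃ K C : ℝ, 1 ≤ K ∧ 1 ≤ C ∧
    ∀ (m : Pl k → ℤ) (r t : ℝ) (u : V2 k), 0 < r → u ≠ 0 →
      (∀ x y : Pl k → ℂ, Rg B K r (tm m t) x y → ‖an m x y u‖ ≤ C) ∧
      ∀ (X Y : ℂ → Pl k → ℂ) (ζ : ℂ), (∀ v, Differentiable ℂ (fun w => X w v)) →
        (∀ v, Differentiable ℂ (fun w => Y w v)) → Rg B K r (tm m t) (X ζ) (Y ζ) →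
        DifferentiableAt ℂ (fun w => an m (X w) (Y w) u) ζ

/-- (ECB) the bound of the Epstein zeta functions. -/
def T_ECBm : Prop :=
  ∀ B : ℝ, 1 ≤ B → ∃ K : ℝ, 1 ≤ K ∧ ∀ κ : ℝ, 0 < κ → κ ≤ 1 / 8 → ∃ (C : ℝ) (j : ℕ), 0 ≤ C ∧
    ∀ (m : Pl k → ℤ) (r : ℝ) (M : La k) (s : ℂ) (x y : Pl k → ℂ), 0 < r → ix M ≠ 0 →
      |s.re - 1 / 2| ≤ κ → Rg B K r (tm m s.im) x y →
      ‖Em s m M x y‖ ≤ C * hm j m s.im * (ix M / mn r M) ^ (1 / 2 + 2 * κ)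

/-- (ECC) the Epstein zeta functions are holomorphic along holomorphic curves of parameters. -/
def T_ECCm : Prop :=
  ∀ B : ℝ, 1 ≤ B → ∃ K : ℝ, 1 ≤ K ∧ ∀ (m : Pl k → ℤ) (r : ℝ) (M : La k) (s : ℂ)
    (X Y : ℂ → Pl k → ℂ) (ζ : ℂ),
    0 < r → ix M ≠ 0 → |s.re - 1 / 2| ≤ 1 / 8 → (∀ v, Differentiable ℂ (fun w => X w v)) →
    (∀ v, Differentiable ℂ (fun w => Y w v)) → Rg B K r (tm m s.im) (X ζ) (Y ζ) →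
    DifferentiableAt ℂ (fun w => Em s m M (X w) (Y w)) ζ

/-! ### The expansion -/

open Classical in
/-- (HE1) the Hecke relation in the region of absolute convergence. -/
def T_HE1m : Prop :=
  ∀ (m : Pl k → ℤ) (b : ℕ) (M : La k) (I g : Ideal (𝓞 k)) (L' : La k) (x y : Pl k → ℝ) (s : ℂ),
    0 < b → Mb b M → Sf b (I * g) → L' ∈ Ls I → (∀ v, 0 < y v) → 1 < s.re → s.re < 2 →
    ∑ L ∈ (Ls (I * g)).filter (fun L => L ≤ L'), Zm s m (M ⊓ L) x y =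
      ∑ J ∈ dv g, ((nm J : ℝ) : ℂ) ^ (1 - 2 * s) * ((nm g : ℝ) : ℂ) ^ s *
        Zm s m (M ⊓ L' ⊓ kO J) x y

open Classical in
/-- (HEC) the Hecke relation. -/
def T_HECm : Prop :=
  ∀ (m : Pl k → ℤ) (b : ℕ) (M : La k) (I g : Ideal (𝓞 k)) (L' : La k) (x y : Pl k → ℝ) (s : ℂ),
    0 < b → Mb b M → Sf b (I * g) → L' ∈ Ls I → (∀ v, 0 < y v) → 0 < s.re → s.re < 2 →
    ∑ L ∈ (Ls (I * g)).filter (fun L => L ≤ L'), Zm s m (M ⊓ L) x y =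
      ∑ J ∈ dv g, ((nm J : ℝ) : ℂ) ^ (1 - 2 * s) * ((nm g : ℝ) : ℂ) ^ s *
        Zm s m (M ⊓ L' ⊓ kO J) x y

/-- (EXP) the expansion of the twisted sums. -/
def T_EXPm : Prop :=
  ∀ (m : Pl k → ℤ) (b : ℕ) (M : La k) (s : ℂ) (α : Ideal (𝓞 k) → ℂ) (A : ℝ) (Q : QF k), 0 < b →
    Mb b M → 0 < s.re → s.re < 2 → 1 ≤ A → Pd Q →
    Bm s m α b A M Q = ∑ I ∈ Sq b A, ∑ L ∈ Ls I,
      cm s m α b A M I L (fun v => (zx Q v : ℂ)) (fun v => (zy Q v : ℂ)) * (Rn I L Q : ℂ)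

/-- (CFB) the bound of the coefficients. -/
def T_CFBm : Prop :=
  ∀ B : ℝ, 1 ≤ B → ∃ K : ℝ, 1 ≤ K ∧ ∀ (b : ℕ) (κ : ℝ), 0 < b → 0 < κ → κ ≤ 1 / 32 →
    ∃ (C : ℝ) (j : ℕ), 0 ≤ C ∧
    ∀ (m : Pl k → ℤ) (M : La k) (s : ℂ) (α : Ideal (𝓞 k) → ℂ) (A r : ℝ) (I : Ideal (𝓞 k)) (L : La k)
      (x y : Pl k → ℂ), Mb b M → |s.re - 1 / 2| ≤ κ → (∀ J, ‖α J‖ ≤ 1) → 1 ≤ A → 1 ≤ r →
      I ∈ Sq b A → L ∈ Ls I → Rg B K r (tm m s.im) x y →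
      ‖cm s m α b A M I L x y‖ ^ 2 * nm I ^ 2 * mn r L ≤
        C * hm j m s.im ^ 2 * A * (A * r ^ dg k) ^ (16 * κ)

/-- (FZC) the twisted sums with complex parameters are holomorphic. -/
def T_FZCm : Prop :=
  ∀ B : ℝ, 1 ≤ B → ∃ K : ℝ, 1 ≤ K ∧ ∀ (m : Pl k → ℤ) (b : ℕ) (r A : ℝ) (M : La k) (s : ℂ)
    (α : Ideal (𝓞 k) → ℂ) (I : Ideal (𝓞 k)) (L : La k) (X Y : ℂ → Pl k → ℂ) (ζ : ℂ),
    0 < b → Mb b M → 0 < r → I ∈ Sq b A → L ∈ Ls I → |s.re - 1 / 2| ≤ 1 / 8 →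
    (∀ v, Differentiable ℂ (fun w => X w v)) →
    (∀ v, Differentiable ℂ (fun w => Y w v)) → Rg B K r (tm m s.im) (X ζ) (Y ζ) →
    DifferentiableAt ℂ (fun w => cm s m α b A M I L (X w) (Y w)) ζ

/-- (TRI) the twisted sums are invariant under translations. -/
def T_TRIm : Prop :=
  ∀ (m : Pl k → ℤ) (b : ℕ) (M : La k) (s : ℂ) (α : Ideal (𝓞 k) → ℂ) (A : ℝ) (Q : QF k) (x : 𝓞 k),
    0 < b → Mb b M → Pd Q → Bm s m α b A M (tr ((b : 𝓞 k) * x) Q) = Bm s m α b A M Q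

/-! ### The second moment -/

/-- (CEL) the twisted second moment over a cell. -/
def T_CELm : Prop :=
  ∀ (R : Ch k) (b : ℕ) (B : ℝ), Adm R b → 1 ≤ B → ∀ ε : ℝ, 0 < ε →
    ∃ κ : ℝ, 0 < κ ∧ κ ≤ 1 / 32 ∧ ∃ δ : ℝ, 0 < δ ∧ δ ≤ 1 / 8 ∧ δ ≤ ε ∧
    ∃ (K C : ℝ) (j : ℕ), 1 ≤ K ∧ 0 ≤ C ∧
    ∀ (s : ℂ) (m : Pl k → ℤ) (y r A : ℝ) (c₁ c₂ : Pl k → ℝ) (P : RF k) (α : Ideal (𝓞 k) → ℂ)
      (M : La k) (S : Finset (QF k)),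
      |s.re - 1 / 2| ≤ κ → 1 ≤ y → 1 ≤ r → r ≤ B * y → 1 ≤ A → A ≤ y ^ (dg k * (1 + δ)) →
      (∀ I, ‖α I‖ ≤ 1) → Gd B y r P → Mb b M →
      (∀ v, |c₁ v| ≤ B * r ∧ r / B ≤ c₂ v ∧ c₂ v ≤ B * r) →
      (∀ Q ∈ S, Pd Q ∧ dq r P (rl Q) ≤ y ^ (2 - 2 * δ) ∧
        ∀ v, K * (1 + |s.im| + ms m) * |zx Q v - c₁ v| ≤ r ∧
          K * (1 + |s.im| + ms m) * |zy Q v - c₂ v| ≤ r) →
      ∑ Q ∈ S, ‖Bm s m α b A M Q‖ ^ 2 ≤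
        C * hm j m s.im ^ 2 * y ^ (dg k * (3 + ε)) * r ^ dg k * A

/-- (BOX) the twisted second moment over a box. -/
def T_BOXm : Prop :=
  ∀ (R : Ch k) (b : ℕ) (B : ℝ), Adm R b → 1 ≤ B → ∀ ε : ℝ, 0 < ε →
    ∃ κ : ℝ, 0 < κ ∧ κ ≤ 1 / 32 ∧ ∃ δ : ℝ, 0 < δ ∧ δ ≤ 1 / 8 ∧ ∃ (C : ℝ) (j : ℕ), 0 ≤ C ∧
    ∀ (s : ℂ) (m : Pl k → ℤ) (y r A : ℝ) (α : Ideal (𝓞 k) → ℂ) (M : La k) (S : Finset (QF k)),
      |s.re - 1 / 2| ≤ κ → 1 ≤ y → 1 ≤ r → r ≤ B * y → 1 ≤ A → A ≤ y ^ (dg k * (1 + δ)) →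
      (∀ I, ‖α I‖ ≤ 1) → Mb b M →
      (∀ Q ∈ S, ∀ v : Pl k, y / (B * r) ≤ rv v (Q.1 : k) ∧ rv v (Q.1 : k) ≤ B * y / r ∧
        |rv v (Q.2.1 : k)| ≤ B * y ∧ y ^ 2 / B ≤ rv v (dsc Q : k) ∧ rv v (dsc Q : k) ≤ B * y ^ 2) →
      ∑ Q ∈ S, ‖Bm s m α b A M Q‖ ^ 2 ≤
        C * hm j m s.im ^ 2 * y ^ (dg k * (3 + ε)) * r ^ dg k * A

/-- (RDB) the twisted second moment over the reduced forms of a given height. -/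
def T_RDBm : Prop :=
  ∀ (R : Ch k) (b : ℕ) (B : ℝ), Adm R b → 1 ≤ B → ∀ ε : ℝ, 0 < ε →
    ∃ κ : ℝ, 0 < κ ∧ κ ≤ 1 / 32 ∧ ∃ δ : ℝ, 0 < δ ∧ δ ≤ 1 / 8 ∧ ∃ (C : ℝ) (j : ℕ), 0 ≤ C ∧
    ∀ (s : ℂ) (m : Pl k → ℤ) (y r A : ℝ) (α : Ideal (𝓞 k) → ℂ) (M : La k) (S : Finset (QF k)),
      |s.re - 1 / 2| ≤ κ → 1 ≤ y → 1 ≤ r → r ≤ B * y → 1 ≤ A → A ≤ y ^ (dg k * (1 + δ)) →
      (∀ I, ‖α I‖ ≤ 1) → Mb b M →
      (∀ Q ∈ S, ∀ v : Pl k, y / (B * r) ≤ rv v (Q.1 : k) ∧ rv v (Q.1 : k) ≤ B * y / r ∧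
        |rv v (Q.2.1 : k)| ≤ B * rv v (Q.1 : k) ∧ y ^ 2 / B ≤ rv v (dsc Q : k) ∧
        rv v (dsc Q : k) ≤ B * y ^ 2) →
      ∑ Q ∈ S, ‖Bm s m α b A M Q‖ ^ 2 ≤ C * hm j m s.im ^ 2 * y ^ (dg k * (3 + ε)) * A

end

end Pool.Agent.H65.CMC
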